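import Pool.Agent.Lib.MP_a28c52_lc.Final

/-! If P and NP differ then there is a first-order sentence such that hereditary model checking
for this sentence is coNP-intermediate. -/

namespace Pool.Agent.Results.MP_a28c52_lc.HerIntermediate

/-- If P and NP differ, then for some `m` there is a first-order sentence `φ` over the signature
with `m` binary relation symbols such that the decision problem `HER(φ)` is coNP-intermediate. -/
theorem result (h : N68a2faeb.P ≠ N68a2faeb.NP) :
    ∃ (m : ℕ) (φ : (HerCo.binLang m).Sentence), HerCo.CoNPIntermediate (HerCo.HER φ) :=
  HerCo.main h

end Pool.Agent.Results.MP_a28c52_lc.HerIntermediate
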